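import Mathlib

set_option autoImplicit false

/-! Graph invariants of problem MP_0f31da_co, stated for finite simple graphs. -/

namespace Pool.Agent.Lib.MP_0f31da_co

open SimpleGraph

/-- `f(G)`: the largest number of vertices of an induced subgraph of `G` that is a forest. -/
noncomputable def forestNum {V : Type} (G : SimpleGraph V) : ℕ :=
  sSup {k | ∃ S : Finset V, (G.induce (S : Set V)).IsAcyclic ∧ S.card = k}

/-- `b(G)`: the largest number of vertices of an induced subgraph of `G` that is bipartite. -/
noncomputable def bipNum {V : Type} (G : SimpleGraph V) : ℕ :=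
  sSup {k | ∃ S : Finset V, (G.induce (S : Set V)).IsBipartite ∧ S.card = k}

/-- `l(v)`: the independence number of the subgraph of `G` induced on the neighbours of `v`. -/
noncomputable def localIndep {V : Type} (G : SimpleGraph V) (v : V) : ℕ :=
  (G.induce (G.neighborSet v)).indepNum

/-- The average of `l(v)` over all vertices. -/
noncomputable def avgLocalIndep {V : Type} [Fintype V] (G : SimpleGraph V) : ℚ :=
  (∑ v : V, (localIndep G v : ℚ)) / (Fintype.card V : ℚ)

end Pool.Agent.Lib.MP_0f31da_co
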