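import Pool.Agent.Lib.MP_0f31da_co.Defs

set_option autoImplicit false

/-! The graph `C4` and the complete graph `K27` joined by one edge. -/

namespace Pool.Agent.Lib.MP_0f31da_co

open SimpleGraph

/-- Adjacency of the example: a 4-cycle on the left, a complete graph on the right, one edge
between `inl 0` and `inr 0`. -/
def adj : (Fin 4 ⊕ Fin 27) → (Fin 4 ⊕ Fin 27) → Prop
  | .inl a, .inl b => a - b = 1 ∨ b - a = 1
  | .inr a, .inr b => a ≠ b
  | .inl a, .inr b => a = 0 ∧ b = 0
  | .inr b, .inl a => a = 0 ∧ b = 0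

/-- The example graph. -/
def X : SimpleGraph (Fin 4 ⊕ Fin 27) where
  Adj := adj
  symm := ⟨by
    rintro (a | a) (b | b) h
    · exact h.symm
    · exact h
    · exact h
    · exact Ne.symm h⟩
  loopless := ⟨by
    rintro (a | a) h
    · rcases h with h | h <;> simp at h
    · exact h rfl⟩

lemma X_inl_inl (a b : Fin 4) : X.Adj (.inl a) (.inl b) ↔ (a - b = 1 ∨ b - a = 1) := Iff.rfl
lemma X_inr_inr (a b : Fin 27) : X.Adj (.inr a) (.inr b) ↔ a ≠ b := Iff.rfl
lemma X_inl_inr (a : Fin 4) (b : Fin 27) : X.Adj (.inl a) (.inr b) ↔ (a = 0 ∧ b = 0) := Iff.rfl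
lemma X_inr_inl (a : Fin 4) (b : Fin 27) : X.Adj (.inr b) (.inl a) ↔ (a = 0 ∧ b = 0) := Iff.rfl

lemma X_connected : X.Connected := by
  rw [SimpleGraph.connected_iff_exists_forall_reachable]
  refine ⟨.inl 0, ?_⟩
  have h1 : X.Reachable (.inl 0) (.inl 1) := Adj.reachable (by rw [X_inl_inl]; decide)
  have h2 : X.Reachable (.inl 1) (.inl 2) := Adj.reachable (by rw [X_inl_inl]; decide)
  have h3 : X.Reachable (.inl 0) (.inl 3) := Adj.reachable (by rw [X_inl_inl]; decide)
  have h0 : X.Reachable (.inl 0) (.inr 0) := Adj.reachable (by rw [X_inl_inr]; decide)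
  rintro (a | a)
  · fin_cases a
    · exact Reachable.refl _
    · exact h1
    · exact h1.trans h2
    · exact h3
  · by_cases ha : a = 0
    · subst ha; exact h0
    · refine h0.trans (Adj.reachable ?_)
      rw [X_inr_inr]; exact fun h => ha h.symm

/-- The 4-cycle and the triangle are not forests. -/
lemma not_acyclic_four : ¬ (SimpleGraph.cycleGraph 4).IsAcyclic := by
  intro h
  let w : (SimpleGraph.cycleGraph 4).Walk 0 0 :=
    .cons (v := 1) (by decide) (.cons (v := 2) (by decide)
      (.cons (v := 3) (by decide) (.cons (v := 0) (by decide) .nil)))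
  have : w.IsCycle := by
    rw [SimpleGraph.Walk.isCycle_def]
    refine ⟨?_, ?_, ?_⟩
    · rw [SimpleGraph.Walk.isTrail_def]; decide
    · intro h
      have := congrArg SimpleGraph.Walk.length h
      simp [w] at this
    · decide
  exact h w this

lemma forest_left (S : Finset (Fin 4 ⊕ Fin 27)) (hS : (X.induce (S : Set _)).IsAcyclic) :
    ¬ ∀ a : Fin 4, (Sum.inl a) ∈ S := by
  intro h
  apply not_acyclic_four
  refine hS.comap (G := SimpleGraph.cycleGraph 4)
    ⟨fun a => ⟨Sum.inl a, by simpa using h a⟩, ?_⟩ ?_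
  · intro a b hab
    rw [SimpleGraph.comap_adj]
    show X.Adj (.inl a) (.inl b)
    rw [X_inl_inl]
    revert hab
    revert a b
    decide
  · intro a b hab
    simpa using hab

lemma forest_right (S : Finset (Fin 4 ⊕ Fin 27)) (hS : (X.induce (S : Set _)).IsBipartite) :
    (S.toRight).card ≤ 2 := by
  by_contra hcard
  push Not at hcard
  obtain ⟨a, b, c, ha, hb, hc, hab, hac, hbc⟩ := Finset.two_lt_card_iff.1 hcard
  rw [Finset.mem_toRight] at ha hb hc
  obtain ⟨col⟩ := hS
  have hva := col.valid (v := ⟨.inr a, by simpa using ha⟩) (w := ⟨.inr b, by simpa using hb⟩)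
    (by show X.Adj (.inr a) (.inr b); exact hab)
  have hvb := col.valid (v := ⟨.inr a, by simpa using ha⟩) (w := ⟨.inr c, by simpa using hc⟩)
    (by show X.Adj (.inr a) (.inr c); exact hac)
  have hvc := col.valid (v := ⟨.inr b, by simpa using hb⟩) (w := ⟨.inr c, by simpa using hc⟩)
    (by show X.Adj (.inr b) (.inr c); exact hbc)
  revert hva hvb hvc
  generalize col ⟨.inr a, _⟩ = x
  generalize col ⟨.inr b, _⟩ = y
  generalize col ⟨.inr c, _⟩ = z
  revert x y z
  decide

lemma forestNum_X : forestNum X ≤ 5 := by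
  unfold forestNum
  apply csSup_le'
  rintro k ⟨S, hS, rfl⟩
  have h1 : S.toLeft.card ≤ 3 := by
    by_contra hc
    push Not at hc
    apply forest_left S hS
    have : S.toLeft = Finset.univ := by
      apply Finset.eq_univ_of_card
      have := Finset.card_le_univ S.toLeft
      simp at this ⊢
      omega
    intro a
    rw [← Finset.mem_toLeft, this]
    exact Finset.mem_univ _
  have h2 := forest_right S hS.isBipartite
  have h3 := Finset.card_toLeft_add_card_toRight (u := S)
  omega

/-- A 6-vertex induced bipartite subgraph. -/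
def S6 : Finset (Fin 4 ⊕ Fin 27) := {.inl 0, .inl 1, .inl 2, .inl 3, .inr 1, .inr 2}

lemma bipNum_X : 6 ≤ bipNum X := by
  unfold bipNum
  apply le_csSup
  · refine ⟨Fintype.card (Fin 4 ⊕ Fin 27), ?_⟩
    rintro k ⟨S, -, rfl⟩
    exact Finset.card_le_univ S
  · refine ⟨S6, ?_, by decide⟩
    refine ⟨SimpleGraph.Coloring.mk (fun v => match v.1 with
      | .inl a => if a = 0 ∨ a = 2 then 0 else 1
      | .inr a => if a = 1 then 0 else 1) ?_⟩
    rintro ⟨v, hv⟩ ⟨w, hw⟩ hvw
    have hvw' : X.Adj v w := hvw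
    simp only [S6, Finset.coe_insert, Finset.coe_singleton, Set.mem_insert_iff,
      Set.mem_singleton_iff] at hv hw
    rcases hv with rfl | rfl | rfl | rfl | rfl | rfl <;>
      rcases hw with rfl | rfl | rfl | rfl | rfl | rfl <;>
      simp_all [X_inl_inl, X_inr_inr, X_inl_inr, X_inr_inl] <;> revert hvw' <;> decide

/-- A vertex all of whose neighbours lie in a union of `n` cliques has `l(v) ≤ n`. -/
lemma localIndep_le (v : Fin 4 ⊕ Fin 27) (n : ℕ) (φ : (Fin 4 ⊕ Fin 27) → Fin n)
    (h : ∀ x y, X.Adj v x → X.Adj v y → x ≠ y → φ x = φ y → X.Adj x y) :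
    localIndep X v ≤ n := by
  unfold localIndep
  obtain ⟨s, hs⟩ := (X.induce (X.neighborSet v)).exists_isNIndepSet_indepNum
  rw [← hs.card_eq]
  have hinj : Set.InjOn (fun x : X.neighborSet v => φ x.1) s := by
    intro x hx y hy hxy
    by_contra hne
    have hadj : X.Adj x.1 y.1 := h x.1 y.1 x.2 y.2 (fun e => hne (Subtype.ext e)) hxy
    exact hs.isIndepSet hx hy hne hadj
  have := Finset.card_le_card_of_injOn (t := Finset.univ) (fun x : X.neighborSet v => φ x.1)
    (fun _ _ => Finset.mem_coe.2 (Finset.mem_univ _)) hinj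
  simpa using this

lemma li_left (a : Fin 4) (ha : a ≠ 0) : localIndep X (.inl a) ≤ 2 := by
  apply localIndep_le _ _ (fun x => match x with
      | .inl b => if b = a + 1 then 0 else 1
      | .inr _ => 0)
  rintro (x | x) (y | y) hx hy hne hxy
  · exfalso
    rw [X_inl_inl] at hx hy
    have hne' : x ≠ y := fun e => hne (by rw [e])
    revert hxy
    revert hx hy hne' ha
    revert a x y
    decide
  · rw [X_inl_inr] at hy; exact absurd hy.1 ha
  · rw [X_inl_inr] at hx; exact absurd hx.1 ha
  · rw [X_inl_inr] at hx; exact absurd hx.1 ha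

lemma li_left0 : localIndep X (.inl 0) ≤ 3 := by
  apply localIndep_le _ _ (fun x => match x with
      | .inl b => if b = 1 then 0 else 1
      | .inr _ => 2)
  rintro (x | x) (y | y) hx hy hne hxy
  · exfalso
    rw [X_inl_inl] at hx hy
    have hne' : x ≠ y := fun e => hne (by rw [e])
    revert hxy
    revert hx hy hne'
    revert x y
    decide
  · exfalso
    dsimp only at hxy
    split_ifs at hxy <;> exact absurd hxy (by decide)
  · exfalso
    dsimp only at hxy
    split_ifs at hxy <;> exact absurd hxy (by decide)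
  · rw [X_inr_inr]; exact fun e => hne (by rw [e])

lemma li_right (a : Fin 27) (ha : a ≠ 0) : localIndep X (.inr a) ≤ 1 := by
  apply localIndep_le _ _ (fun _ => 0)
  rintro (x | x) (y | y) hx hy hne hxy
  · rw [X_inr_inl] at hx; exact absurd hx.2 ha
  · rw [X_inr_inl] at hx; exact absurd hx.2 ha
  · rw [X_inr_inl] at hy; exact absurd hy.2 ha
  · rw [X_inr_inr]; exact fun e => hne (by rw [e])

lemma li_right0 : localIndep X (.inr 0) ≤ 2 := by
  apply localIndep_le _ _ (fun x => match x with
      | .inl _ => 0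
      | .inr _ => 1)
  rintro (x | x) (y | y) hx hy hne hxy
  · rw [X_inr_inl] at hx hy
    exact absurd (by rw [hx.1, hy.1]) hne
  · exfalso; revert hxy; simp
  · exfalso; revert hxy; simp
  · rw [X_inr_inr]; exact fun e => hne (by rw [e])

lemma sum_li : ∑ v, localIndep X v ≤ 37 := by
  rw [Fintype.sum_sum_type]
  have h1 : ∑ a : Fin 4, localIndep X (.inl a) ≤ ∑ a : Fin 4, (if a = 0 then 3 else 2) := by
    apply Finset.sum_le_sum
    intro a _
    split_ifs with h
    · subst h; exact li_left0
    · exact li_left a h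
  have h2 : ∑ a : Fin 27, localIndep X (.inr a) ≤ ∑ a : Fin 27, (if a = 0 then 2 else 1) := by
    apply Finset.sum_le_sum
    intro a _
    split_ifs with h
    · subst h; exact li_right0
    · exact li_right a h
  have h3 : ∑ a : Fin 4, (if a = 0 then 3 else 2) = 9 := by decide
  have h4 : ∑ a : Fin 27, (if a = 0 then 2 else 1) = 28 := by decide
  omega

lemma one_le_li : 1 ≤ ∑ v, localIndep X v := by
  have h : 1 ≤ localIndep X (.inl 0) := by
    unfold localIndep
    have hmem : (Sum.inl 1 : Fin 4 ⊕ Fin 27) ∈ X.neighborSet (.inl 0) := by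
      rw [SimpleGraph.mem_neighborSet, X_inl_inl]; decide
    have : (X.induce (X.neighborSet (.inl 0))).IsIndepSet
        (({⟨.inl 1, hmem⟩} : Finset (X.neighborSet (.inl 0))) : Set _) := by
      simp [SimpleGraph.IsIndepSet]
    simpa using this.card_le_indepNum
  exact h.trans (Finset.single_le_sum (f := fun v => localIndep X v)
    (fun _ _ => Nat.zero_le _) (Finset.mem_univ _))

theorem main :
    ¬ ∀ (V : Type) [Fintype V] [Nontrivial V] (G : SimpleGraph V), G.Connected →
      ⌈(bipNum G : ℚ) / avgLocalIndep G⌉ ≤ (forestNum G : ℤ) := by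
  intro h
  have : Nontrivial (Fin 4 ⊕ Fin 27) := ⟨⟨.inl 0, .inl 1, by simp⟩⟩
  have h1 := h (Fin 4 ⊕ Fin 27) X X_connected
  rw [Int.ceil_le] at h1
  have hf : (forestNum X : ℚ) ≤ 5 := by exact_mod_cast forestNum_X
  have hb : (6 : ℚ) ≤ bipNum X := by exact_mod_cast bipNum_X
  have hs : (∑ v, (localIndep X v : ℚ)) ≤ 37 := by exact_mod_cast sum_li
  have hs1 : (1 : ℚ) ≤ (∑ v, (localIndep X v : ℚ)) := by exact_mod_cast one_le_li
  have hl : avgLocalIndep X = (∑ v, (localIndep X v : ℚ)) / 31 := by
    unfold avgLocalIndep; norm_num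
  rw [hl] at h1
  set s := (∑ v, (localIndep X v : ℚ)) with hsdef
  have hspos : 0 < s / 31 := by positivity
  rw [div_le_iff₀ hspos] at h1
  have h2 : ((forestNum X : ℤ) : ℚ) ≤ 5 := by exact_mod_cast forestNum_X
  nlinarith

end Pool.Agent.Lib.MP_0f31da_co
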